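import Pool.Agent.W564.MM.Defs

open MeasureTheory Filter Topology Finset
open Pool.Agent.W564.MM

namespace Pool.Agent.W530.MM

/-- approximation of an indicator by a continuous function in `L¹` -/
theorem approx (B : Set (T1 × T1)) (hB : MeasurableSet B) (η : ℝ) (hη : 0 < η) :
    ∃ g : C(T1 × T1, ℂ), ∫ p, ‖B.indicator (fun _ => (1 : ℂ)) p - g p‖ ≤ η := by
  have hm : MemLp (B.indicator (fun _ => (1 : ℂ))) 1 (volume : Measure (T1 × T1)) :=
    memLp_indicator_const 1 hB 1 (Or.inr (measure_ne_top _ _))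
  obtain ⟨g, hg, hg'⟩ := hm.exists_boundedContinuous_eLpNorm_sub_le (by simp)
    (ε := ENNReal.ofReal η) (by simpa using hη)
  refine ⟨g.toContinuousMap, ?_⟩
  have h2 : MemLp (B.indicator (fun _ => (1 : ℂ)) - ⇑g) 1 (volume : Measure (T1 × T1)) := hm.sub hg'
  have h3 := h2.eLpNorm_ne_top
  rw [eLpNorm_one_eq_lintegral_enorm] at hg
  have e : ∫ p, ‖B.indicator (fun _ => (1 : ℂ)) p - g.toContinuousMap p‖ =
      ∫ x, ‖(B.indicator (fun _ => (1 : ℂ)) - ⇑g) x‖ := rfl
  rw [e, integral_norm_eq_lintegral_enorm h2.aestronglyMeasurable]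
  exact ENNReal.toReal_le_of_le_ofReal hη.le hg

instance : IsProbabilityMeasure (volume : Measure T1) := ⟨by
  rw [AddCircle.measure_univ]; simp⟩

theorem inv (h1 : S_BAS) (h2 : S_AVG) : S_INV := by
  obtain ⟨-, -, -, -, -, hmp, -⟩ := h1
  intro B hB ε hε
  obtain ⟨g, hg⟩ := approx B hB (ε / 3) (by positivity)
  have hgi : Integrable (fun p => g p) (volume : Measure (T1 × T1)) :=
    g.continuous.integrable_of_hasCompactSupport (HasCompactSupport.of_compactSpace _)
  set c : ℂ := ∫ p, g p with hc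
  let g1 : C(T1 × T1, ℂ) := g - ContinuousMap.const _ c
  have hg1 : ∫ p, g1 p = 0 := by
    simp only [g1, ContinuousMap.sub_apply, ContinuousMap.const_apply]
    rw [integral_sub hgi (integrable_const _)]
    simp [hc]
  obtain ⟨n, hn, a₀, ha₀⟩ := h2 g1 hg1 ((ε / 3) ^ 2) (by positivity)
  refine ⟨a₀, fun a ha A hA hinv => ?_⟩
  have hav := ha₀ a ha
  have hS : MeasurePreserving (SM a) (volume : Measure (T1 × T1)) volume := hmp a
  have hSj : ∀ j : ℕ, MeasurePreserving (SM a)^[j] (volume : Measure (T1 × T1)) volume :=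
    fun j => hS.iterate j
  have hAj : ∀ j : ℕ, ((SM a)^[j]) ⁻¹' A = A := by
    intro j
    induction j with
    | zero => simp
    | succ j ih => rw [Function.iterate_succ', Set.preimage_comp, hinv, ih]
  have hg1c : Continuous fun p => g1 p := g1.continuous
  -- the indicator as a complex function
  let IA : T1 × T1 → ℂ := A.indicator (fun _ => (1 : ℂ))
  let IB : T1 × T1 → ℂ := B.indicator (fun _ => (1 : ℂ))
  have hIAm : AEStronglyMeasurable IA (volume : Measure (T1 × T1)) :=
    (aestronglyMeasurable_const.indicator hA)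
  have hIAn : ∀ p, ‖IA p‖ ≤ 1 := by
    intro p
    by_cases hp : p ∈ A <;> simp [IA, hp]
  have hIAi : Integrable IA (volume : Measure (T1 × T1)) :=
    (integrable_const (1 : ℂ)).indicator hA
  have hIBi : Integrable IB (volume : Measure (T1 × T1)) :=
    (integrable_const (1 : ℂ)).indicator hB
  have hG : ∀ j : ℕ, Integrable (fun p => g1 ((SM a)^[j] p)) (volume : Measure (T1 × T1)) := by
    intro j
    refine (hSj j).integrable_comp_of_integrable ?_
    exact g1.continuous.integrable_of_hasCompactSupport (HasCompactSupport.of_compactSpace _)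
  have hIAG : ∀ j : ℕ, Integrable (fun p => IA p * g1 ((SM a)^[j] p))
      (volume : Measure (T1 × T1)) := by
    intro j
    exact (hG j).bdd_mul hIAm (Eventually.of_forall hIAn)
  have key : ∀ j : ℕ, ∫ p, IA p * g1 ((SM a)^[j] p) = ∫ p, IA p * g1 p := by
    intro j
    have e1 : ∀ p, IA p * g1 ((SM a)^[j] p) = (fun q => IA q * g1 q) ((SM a)^[j] p) := by
      intro p
      have : IA p = IA ((SM a)^[j] p) := by
        have h := hAj j
        have : p ∈ A ↔ (SM a)^[j] p ∈ A := by
          conv_lhs => rw [← h]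
          rfl
        by_cases hp : p ∈ A
        · simp [IA, hp, this.1 hp]
        · have hp' : (SM a)^[j] p ∉ A := fun h' => hp (this.2 h')
          simp only [IA, Set.indicator_of_notMem hp, Set.indicator_of_notMem hp']
      simp only
      rw [← this]
    simp_rw [e1]
    rw [← integral_map (f := fun q => IA q * g1 q) (hSj j).measurable.aemeasurable, (hSj j).map_eq]
    rw [(hSj j).map_eq]
    exact hIAm.mul g1.continuous.aestronglyMeasurable
  have hn0 : (n : ℂ) ≠ 0 := by exact_mod_cast (by omega : n ≠ 0)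
  have key2 : ∫ p, IA p * g1 p =
      ∫ p, IA p * ((n : ℂ)⁻¹ * ∑ j ∈ Finset.range n, g1 ((SM a)^[j] p)) := by
    have e : ∀ p, IA p * ((n : ℂ)⁻¹ * ∑ j ∈ Finset.range n, g1 ((SM a)^[j] p)) =
        (n : ℂ)⁻¹ * ∑ j ∈ Finset.range n, IA p * g1 ((SM a)^[j] p) := by
      intro p
      rw [Finset.mul_sum, Finset.mul_sum, Finset.mul_sum]
      exact Finset.sum_congr rfl fun j _ => by ring
    simp_rw [e]
    rw [integral_const_mul, integral_finset_sum _ fun j _ => hIAG j]
    simp_rw [key]
    rw [Finset.sum_const, Finset.card_range, nsmul_eq_mul, ← mul_assoc, inv_mul_cancel₀ hn0,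
      one_mul]
  set F : T1 × T1 → ℂ := fun p => (n : ℂ)⁻¹ * ∑ j ∈ Finset.range n, g1 ((SM a)^[j] p) with hF
  have hFi : Integrable F (volume : Measure (T1 × T1)) := by
    refine Integrable.const_mul ?_ _
    exact integrable_finset_sum _ fun j _ => hG j
  have hFb : ∃ M : ℝ, ∀ p, ‖F p‖ ≤ M := by
    refine ⟨‖(n : ℂ)⁻¹‖ * ∑ j ∈ Finset.range n, ‖g1‖, fun p => ?_⟩
    rw [hF]
    simp only [norm_mul]
    refine mul_le_mul_of_nonneg_left ?_ (norm_nonneg _)
    exact (norm_sum_le _ _).trans (Finset.sum_le_sum fun j _ => g1.norm_coe_le_norm _)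
  have hF2i : Integrable (fun p => ‖F p‖ ^ 2) (volume : Measure (T1 × T1)) := by
    obtain ⟨M, hM⟩ := hFb
    refine Integrable.mono' (integrable_const (M ^ 2)) (hFi.aestronglyMeasurable.norm.pow 2)
      (Eventually.of_forall fun p => ?_)
    rw [Real.norm_of_nonneg (by positivity)]
    exact pow_le_pow_left₀ (norm_nonneg _) (hM p) 2
  have h3 : ‖∫ p, IA p * g1 p‖ ≤ ε / 3 := by
    rw [key2]
    have t : ∀ p, ‖IA p * F p‖ ≤ (‖F p‖ ^ 2 / (ε / 3) + ε / 3) / 2 := by
      intro p
      have h4 : ‖IA p * F p‖ ≤ ‖F p‖ := by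
        rw [norm_mul]
        calc ‖IA p‖ * ‖F p‖ ≤ 1 * ‖F p‖ := by gcongr; exact hIAn p
          _ = ‖F p‖ := one_mul _
      refine h4.trans ?_
      have hd : 0 < ε / 3 := by positivity
      rw [le_div_iff₀ two_pos, div_add' _ _ _ hd.ne', le_div_iff₀ hd]
      nlinarith [sq_nonneg (‖F p‖ - ε / 3)]
    have hd : 0 < ε / 3 := by positivity
    calc ‖∫ p, IA p * F p‖ ≤ ∫ p, ‖IA p * F p‖ := norm_integral_le_integral_norm _
      _ ≤ ∫ p, (‖F p‖ ^ 2 / (ε / 3) + ε / 3) / 2 := by
          refine integral_mono_of_nonneg (Eventually.of_forall fun p => norm_nonneg _) ?_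
            (Eventually.of_forall t)
          exact ((hF2i.div_const _).add (integrable_const _)).div_const _
      _ = ((∫ p, ‖F p‖ ^ 2) / (ε / 3) + ε / 3) / 2 := by
          rw [integral_div, integral_add (hF2i.div_const _) (integrable_const _), integral_div]
          simp
      _ ≤ ((ε / 3) ^ 2 / (ε / 3) + ε / 3) / 2 := by gcongr
      _ = ε / 3 := by field_simp; ring
  -- the final comparison
  have hvA : (∫ p, IA p) = (volume.real A : ℂ) := by
    simp only [IA]
    rw [integral_indicator hA]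
    simp [Measure.real]
  have hvB : (∫ p, IB p) = (volume.real B : ℂ) := by
    simp only [IB]
    rw [integral_indicator hB]
    simp [Measure.real]
  have hvAB : (∫ p, IA p * IB p) = (volume.real (A ∩ B) : ℂ) := by
    have e : (fun p => IA p * IB p) = (A ∩ B).indicator (fun _ => (1 : ℂ)) := by
      ext p
      by_cases hp : p ∈ A <;> by_cases hq : p ∈ B <;> simp [IA, IB, hp, hq]
    rw [e, integral_indicator (hA.inter hB)]
    simp [Measure.real]
  have hgd : ∫ p, ‖IB p - g p‖ ≤ ε / 3 := hg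
  have hdi : Integrable (fun p => IB p - g p) (volume : Measure (T1 × T1)) := hIBi.sub hgi
  have hIAd : Integrable (fun p => IA p * (IB p - g p)) (volume : Measure (T1 × T1)) :=
    hdi.bdd_mul hIAm (Eventually.of_forall hIAn)
  have hIAg1 : Integrable (fun p => IA p * g1 p) (volume : Measure (T1 × T1)) := by
    simpa using hIAG 0
  have hcB : ‖c - (volume.real B : ℂ)‖ ≤ ε / 3 := by
    rw [← hvB, hc, ← integral_sub hgi hIBi, ← norm_neg, ← integral_neg]
    refine (norm_integral_le_integral_norm _).trans ?_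
    simpa using hgd
  have split : (volume.real (A ∩ B) : ℂ) - (volume.real A : ℂ) * (volume.real B : ℂ) =
      (∫ p, IA p * (IB p - g p)) + (∫ p, IA p * g1 p) +
        (volume.real A : ℂ) * (c - (volume.real B : ℂ)) := by
    have hIAB : Integrable (fun p => IA p * IB p) (volume : Measure (T1 × T1)) :=
      hIBi.bdd_mul hIAm (Eventually.of_forall hIAn)
    rw [← integral_add hIAd hIAg1]
    have e1 : ∀ p, IA p * (IB p - g p) + IA p * g1 p = IA p * IB p - c * IA p := by
      intro p
      simp only [g1, ContinuousMap.sub_apply, ContinuousMap.const_apply]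
      ring
    simp_rw [e1]
    rw [integral_sub hIAB (hIAi.const_mul c), integral_const_mul, hvA, hvAB]
    ring
  have hA1 : volume.real A ≤ 1 := by
    exact measureReal_le_one
  have hfin : ‖((volume.real (A ∩ B) - volume.real A * volume.real B : ℝ) : ℂ)‖ ≤ ε := by
    push_cast
    rw [split]
    have h5 : ‖∫ p, IA p * (IB p - g p)‖ ≤ ε / 3 := by
      refine (norm_integral_le_integral_norm _).trans ?_
      refine le_trans ?_ hgd
      refine integral_mono hIAd.norm hdi.norm fun p => ?_
      simp only [norm_mul]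
      calc ‖IA p‖ * ‖IB p - g p‖ ≤ 1 * ‖IB p - g p‖ := by gcongr; exact hIAn p
        _ = _ := one_mul _
    have h6 : ‖(volume.real A : ℂ) * (c - (volume.real B : ℂ))‖ ≤ ε / 3 := by
      rw [norm_mul, Complex.norm_real, Real.norm_of_nonneg measureReal_nonneg]
      calc volume.real A * ‖c - (volume.real B : ℂ)‖ ≤ 1 * (ε / 3) := by gcongr
        _ = ε / 3 := one_mul _
    calc _ ≤ ‖∫ p, IA p * (IB p - g p)‖ + ‖∫ p, IA p * g1 p‖ +
          ‖(volume.real A : ℂ) * (c - (volume.real B : ℂ))‖ := norm_add₃_le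
      _ ≤ ε / 3 + ε / 3 + ε / 3 := by gcongr
      _ = ε := by ring
  rwa [Complex.norm_real, Real.norm_eq_abs] at hfin

end Pool.Agent.W530.MM
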